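import Mathlib
import Pool.Agent.N751.FR.Asm3
import Pool.Agent.N751.FR.Asm1
import Pool.Agent.Y729.FW.Surj

/-!
# Frey's inequality with slope at most `1 / 2 - 1 / (2 γ) + ε` for all twists over the points of
# degree `r` of every one-parameter family of elliptic curves

Frey asks for constants `κ`, `c` depending only on the number field `K` and on `g`, such that
`h_F(A) ≤ κ log N_A + c` for all abelian varieties `A` over `K` of dimension `g`. Let `r ≥ 1`. We
consider EVERY one-parameter family of elliptic curves over `K` with nonconstant modular invariant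
`j = A / B ∈ K(T)`, the numbers `x` of DEGREE `r` over `K`, ALL elliptic curves `F` over `M = K(x)`
with modular invariant `j(x)` (all twists of the fibre), and their Weil restrictions
`Res_{M/K} F`, abelian varieties over `K` of dimension `r`. Their (unstable) Faltings height is given
by Silverman's formula in terms of the minimal discriminant of `F`, the periods and the relative
discriminant, and the conductor is `N(f_F) (|D_M| / |D_K| ^ r) ^ 2` (Milne).

The bad places of the family are the places of `ℙ¹`, infinity included, at which all twists of the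
family have bad reduction: the poles of `j`, the zeros of `j` of order not divisible by three and
the zeros of `j - 1728` of odd order. Let `γ` be their number, each counted with its degree. The
weight `m` of the family is the degree of `j` plus `2`, `4`, `3` for each (geometric) zero of `j` of
order `1` or `2` modulo three and each zero of `j - 1728` of odd order: the exponents of the minimal
discriminants of the best twists. Then `m + 12 ≤ 6 γ`.

There is ONE exceptional set `E` of numbers of degree `r` over `K` (given by their minimal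
polynomials), containing at most `2 exp ((r + 1) U - √U)` numbers of height at most `U`, whereas
there are at least `c exp ((r + 1) U)` such numbers, with the following property: for every family
whose bad places have degree at most `2 r + 1` (every family, if `r` is large) and `ε > 0` there is
`C` such that for all `x ∉ E` of degree `r` with `j(x) ≠ 0, 1728, ∞` and ALL `F`, `A = Res_{M/K} F`,

`12 [K : ℚ] h_F(A) ≤ (m / γ + ε) log (mult. part of N_F) + (3 + m / (2 γ) + ε / 2) log (add. part)`
`+ 3 log (N(D_{M/K}) ^ 2) + C`, and `[K : ℚ] h_F(A) ≤ (1 / 2 - 1 / (2 γ) + ε) log N_A + C`.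

Proof: the exceptional set comes from a theorem of the same run on the truncated counting functions
of the points of degree `r` of the line (resultants are nearly squarefree), which also bounds the
contributions of the multiple zeros; a local inequality for the minimal discriminant at every prime,
with the contribution of the bad places; Wronskians (the theorem of Mason and Stothers with weights
and with infinity).
-/

set_option autoImplicit false

namespace Pool.Agent.Results.MP_6babc4_nt.AllFamiliesDegreeR

open NumberField IsDedekindDomain Polynomial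

/-- the modular invariant `j(τ) = E₄(τ) ^ 3 / Δ(τ) = 1 / q + 744 + ⋯` -/
noncomputable def jInv (τ : UpperHalfPlane) : ℂ :=
  ModularForm.E₄ τ ^ 3 / ModularForm.discriminant τ

/-- the archimedean term `- log (|Δ(τ)| (Im τ) ^ 6)` of the Faltings height -/
noncomputable def arch (τ : UpperHalfPlane) : ℝ :=
  -Real.log (‖ModularForm.discriminant τ‖ * τ.im ^ 6)

/-- the points `τ w` have modular invariant `j` -/
def IsPeriod {M : Type} [Field M] [NumberField M] (j : M)
    (τ : InfinitePlace M → UpperHalfPlane) : Prop := ∀ w, jInv (τ w) = w.embedding j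

/-- the equation is integral at `v` -/
def IntAt {M : Type} [Field M] [NumberField M] (v : HeightOneSpectrum (𝓞 M))
    (F : WeierstrassCurve M) : Prop :=
  v.valuation M F.a₁ ≤ 1 ∧ v.valuation M F.a₂ ≤ 1 ∧ v.valuation M F.a₃ ≤ 1 ∧
    v.valuation M F.a₄ ≤ 1 ∧ v.valuation M F.a₆ ≤ 1

/-- the exponent of `v` in the minimal discriminant of the curve: the least valuation at `v` of the
discriminant of a Weierstrass equation of the curve over `M` which is integral at `v` -/
noncomputable def discExp {M : Type} [Field M] [NumberField M] (v : HeightOneSpectrum (𝓞 M))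
    (F : WeierstrassCurve M) : ℕ :=
  sInf {m : ℕ | ∃ C : WeierstrassCurve.VariableChange M, IntAt v (C • F) ∧
    v.valuation M (C • F).Δ = WithZero.exp (-(m : ℤ))}

/-- the Faltings height over `K` of the Weil restriction `A = Res_{M/K} F` of an elliptic curve `F`
over `M` (up to an absolute additive multiple of `[M : K]` which depends on the normalisation of the
metric only) -/
noncomputable def height (K : Type) [Field K] [NumberField K] {M : Type} [Field M] [NumberField M]
    [Algebra K M] (F : WeierstrassCurve M) (τ : InfinitePlace M → UpperHalfPlane) : ℝ :=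
  (∑ᶠ v : HeightOneSpectrum (𝓞 M), (discExp v F : ℝ) * Real.log (Ideal.absNorm v.asIdeal : ℝ) +
    ∑ w : InfinitePlace M, (w.mult : ℝ) * arch (τ w) +
    6 * (Real.log |(discr M : ℝ)| - Module.finrank K M * Real.log |(discr K : ℝ)|)) /
    (12 * Module.finrank ℚ K)

/-- good reduction at `v`: some Weierstrass equation over `M` of the curve is integral at `v` and
has a discriminant which is a unit at `v` -/
def GoodAt {M : Type} [Field M] [NumberField M] (v : HeightOneSpectrum (𝓞 M))
    (F : WeierstrassCurve M) : Prop :=
  ∃ C : WeierstrassCurve.VariableChange M,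
    v.valuation M (C • F).a₁ ≤ 1 ∧ v.valuation M (C • F).a₂ ≤ 1 ∧ v.valuation M (C • F).a₃ ≤ 1 ∧
    v.valuation M (C • F).a₄ ≤ 1 ∧ v.valuation M (C • F).a₆ ≤ 1 ∧ v.valuation M (C • F).Δ = 1

/-- semistable (good or multiplicative) reduction at `v`: some Weierstrass equation over `M` of the
curve is integral at `v` and its discriminant or its invariant `c₄` is a unit at `v` -/
def SemistableAt {M : Type} [Field M] [NumberField M] (v : HeightOneSpectrum (𝓞 M))
    (F : WeierstrassCurve M) : Prop :=
  ∃ C : WeierstrassCurve.VariableChange M,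
    v.valuation M (C • F).a₁ ≤ 1 ∧ v.valuation M (C • F).a₂ ≤ 1 ∧ v.valuation M (C • F).a₃ ≤ 1 ∧
    v.valuation M (C • F).a₄ ≤ 1 ∧ v.valuation M (C • F).a₆ ≤ 1 ∧
    (v.valuation M (C • F).Δ = 1 ∨ v.valuation M (C • F).c₄ = 1)

/-- the product of the norms of the primes of multiplicative reduction not dividing six -/
noncomputable def multNorm {M : Type} [Field M] [NumberField M] (F : WeierstrassCurve M) : ℝ :=
  ∏ᶠ v ∈ {v : HeightOneSpectrum (𝓞 M) |
    ¬ GoodAt v F ∧ SemistableAt v F ∧ v.valuation M 6 = 1}, (Ideal.absNorm v.asIdeal : ℝ)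

/-- the product of the squares of the norms of the primes of additive reduction not dividing six -/
noncomputable def addNorm {M : Type} [Field M] [NumberField M] (F : WeierstrassCurve M) : ℝ :=
  ∏ᶠ v ∈ {v : HeightOneSpectrum (𝓞 M) | ¬ SemistableAt v F ∧ v.valuation M 6 = 1},
    (Ideal.absNorm v.asIdeal : ℝ) ^ 2

/-- the norm `|D_M| / |D_K| ^ [M : K]` of the relative discriminant -/
noncomputable def relDisc (K M : Type) [Field K] [NumberField K] [Field M] [NumberField M]
    [Algebra K M] : ℝ := |(discr M : ℝ)| / |(discr K : ℝ)| ^ Module.finrank K M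

/-- the part `N` of the conductor of `A = Res_{M/K} F`: the part prime to six of the norm of the
conductor of `F`, times the square of the norm of the relative discriminant -/
noncomputable def cond (K : Type) [Field K] [NumberField K] {M : Type} [Field M] [NumberField M]
    [Algebra K M] (F : WeierstrassCurve M) : ℝ :=
  multNorm F * addNorm F * relDisc K M ^ 2

/-- `p` is the minimal polynomial over `K` of a generator `x` of an extension `M / K` of degree `r`,
of height at most `U`. Mathlib's height of `x ∈ M` is `[M : ℚ]` times the absolute logarithmic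
height. -/
def AtHeight {K : Type} [Field K] [NumberField K] (r : ℕ) (U : ℝ) (p : K[X]) : Prop :=
  ∃ (M : Type) (_ : Field M) (_ : NumberField M) (_ : Algebra K M) (x : M),
    Module.finrank K M = r ∧ (minpoly K x).natDegree = r ∧ minpoly K x = p ∧
      Height.logHeight₁ x ≤ U

open Classical in
/-- the finite bad places of a family with modular invariant `j = A / B`: the monic irreducible
polynomials which divide `B`, or divide `A` with multiplicity not divisible by three, or divide
`A - 1728 B` with odd multiplicity -/
noncomputable def badPlaces {K : Type} [Field K] (A B : K[X]) : Finset K[X] :=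
  (UniqueFactorizationMonoid.normalizedFactors (A * (A - 1728 * B) * B)).toFinset.filter fun P =>
    P ∣ B ∨ ¬ 3 ∣ multiplicity P A ∨ ¬ 2 ∣ multiplicity P (A - 1728 * B)

/-- infinity is a bad place: `j = A / B` has a pole at infinity, or a zero of order not divisible by
three, or `j - 1728` has a zero of odd order (the differences are truncated) -/
def InfinityBad {K : Type} [Field K] (A B : K[X]) : Prop :=
  B.natDegree < A.natDegree ∨ ¬ 3 ∣ (B.natDegree - A.natDegree) ∨
    ¬ 2 ∣ (B.natDegree - (A - 1728 * B).natDegree)

open Classical in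
/-- the number `γ` of the bad places, counted with their degrees, infinity included -/
noncomputable def places {K : Type} [Field K] (A B : K[X]) : ℕ :=
  ∑ P ∈ badPlaces A B, P.natDegree + if InfinityBad A B then 1 else 0

/-- the least exponent of the discriminant, up to quadratic twists, for the order `a` of `j` and the
order `c` of `j - 1728`: `2` for `a = 1 mod 3`, `4` for `a = 2 mod 3`, `3` for odd `c` -/
def exponent (a c : ℕ) : ℕ :=
  if a % 3 = 1 then 2 else if a % 3 = 2 then 4 else if c % 2 = 1 then 3 else 0

open Classical in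
/-- the same at the place `P` (zero at the poles of `j`) -/
noncomputable def exponentAt {K : Type} [Field K] (A B P : K[X]) : ℕ :=
  if P ∣ B then 0 else exponent (multiplicity P A) (multiplicity P (A - 1728 * B))

/-- the same at infinity -/
noncomputable def exponentInf {K : Type} [Field K] (A B : K[X]) : ℕ :=
  if B.natDegree < A.natDegree then 0 else
    exponent (B.natDegree - A.natDegree) (B.natDegree - (A - 1728 * B).natDegree)

/-- the weight `m` of the family: the degree of `j` and the exponents at the bad places, counted with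
their degrees -/
noncomputable def weight {K : Type} [Field K] (A B : K[X]) : ℕ :=
  max A.natDegree B.natDegree + ∑ P ∈ badPlaces A B, exponentAt A B P * P.natDegree +
    exponentInf A B

/-- **Frey's inequality for all twists over 100 % of the points of degree `r` of every
one-parameter family.** -/
theorem result (K : Type) [Field K] [NumberField K] (r : ℕ) (hr : 1 ≤ r) :
    -- there are at least `c exp ((r + 1) U)` numbers of degree `r` and height at most `U`
    (∃ c U₀ : ℝ, 0 < c ∧ ∀ U : ℝ, U₀ ≤ U → ∃ T : Finset K[X], (∀ p ∈ T, AtHeight r U p) ∧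
      c * Real.exp ((r + 1) * U) ≤ T.card) ∧
    -- one exceptional set
    ∃ E : Set K[X],
      (∀ U : ℝ, 0 ≤ U → {p | p ∈ E ∧ AtHeight r U p}.Finite ∧
        ({p | p ∈ E ∧ AtHeight r U p}.ncard : ℝ) ≤ 2 * Real.exp ((r + 1) * U - √U)) ∧
      -- for every family
      ∀ A B : K[X], IsCoprime A B → B ≠ 0 → 1 ≤ max A.natDegree B.natDegree →
        weight A B + 12 ≤ 6 * places A B ∧
        ((∀ P ∈ badPlaces A B, P.natDegree ≤ 2 * r + 1) → ∀ ε : ℝ, 0 < ε → ∃ C : ℝ,
          ∀ (M : Type) [Field M] [NumberField M] [Algebra K M] (x : M),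
            Module.finrank K M = r → (minpoly K x).natDegree = r → minpoly K x ∉ E →
            aeval x A ≠ 0 → aeval x B ≠ 0 → aeval x (A - 1728 * B) ≠ 0 →
            ∀ F : WeierstrassCurve M, F.Δ ≠ 0 → F.c₄ ^ 3 / F.Δ = aeval x A / aeval x B →
            (∃ τ : InfinitePlace M → UpperHalfPlane, IsPeriod (F.c₄ ^ 3 / F.Δ) τ) ∧
            ∀ τ : InfinitePlace M → UpperHalfPlane, IsPeriod (F.c₄ ^ 3 / F.Δ) τ →
              12 * Module.finrank ℚ K * height K F τ ≤
                ((weight A B : ℝ) / places A B + ε) * Real.log (multNorm F) +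
                (3 + ((weight A B : ℝ) / places A B + ε) / 2) * Real.log (addNorm F) +
                3 * Real.log (relDisc K M ^ 2) + C ∧
              Module.finrank ℚ K * height K F τ ≤
                (1 / 2 - 1 / (2 * (places A B : ℝ)) + ε) * Real.log (cond K F) + C) := by
  classical
  refine ⟨Pool.Agent.N31.FR.t K r hr, ?_⟩
  obtain ⟨E, hE1, hE2⟩ := Pool.Agent.N751.FR.exists_exc K r hr
  refine ⟨E, hE1, fun A B hc hB hN => ?_⟩
  have h3 : weight A B + 12 ≤ 6 * places A B := Pool.Agent.N401.FR.t K A B hc hB hN
  have hw1 : 1 ≤ weight A B := by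
    unfold weight
    omega
  refine ⟨h3, fun hP ε hε => ?_⟩
  obtain ⟨C, hC⟩ := Pool.Agent.N751.FR.main2 K r hr E hE2 A B hc hB hN hP ε hε
  refine ⟨|C|, ?_⟩
  intro M _ _ _ x hM hx hxE hAx hBx hCx F hF hj
  refine ⟨?_, fun τ hτ => ?_⟩
  · have h := fun w : InfinitePlace M =>
      Pool.Agent.Y729.FW.j_surj (w.embedding (F.c₄ ^ 3 / F.Δ))
    choose τ hτ using h
    exact ⟨τ, hτ⟩
  have hmain := hC M x hM hx hxE hAx hBx hCx F τ hF hj hτ
  have hmain' : ∑ᶠ v : HeightOneSpectrum (𝓞 M), (discExp v F : ℝ) *
      Real.log (Ideal.absNorm v.asIdeal : ℝ) + ∑ w : InfinitePlace M, (w.mult : ℝ) * arch (τ w) ≤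
      ((weight A B : ℝ) / places A B + ε) * Real.log (multNorm F) +
        (3 + ((weight A B : ℝ) / places A B + ε) / 2) * Real.log (addNorm F) + C := hmain
  have hmp : 0 < multNorm F := Pool.Agent.Y733.FF.multN_pos F hF
  have hap : 0 < addNorm F := Pool.Agent.Y733.FF.addN_pos F hF
  have hm0 : 0 ≤ Real.log (multNorm F) := Pool.Agent.Y733.FF.log_multN_nonneg F hF
  have ha0 : 0 ≤ Real.log (addNorm F) := by
    have h1 : Real.log (addNorm F) = _ := Pool.Agent.Y733.FF.log_addN F hF
    rw [h1]
    have := finsum_nonneg fun v => Pool.Agent.Y733.FF.aw_nonneg v F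
    positivity
  have hdK : (0 : ℝ) < |(discr K : ℝ)| := by
    rw [abs_pos]
    exact_mod_cast discr_ne_zero K
  have hdM : (0 : ℝ) < |(discr M : ℝ)| := by
    rw [abs_pos]
    exact_mod_cast discr_ne_zero M
  have hrd : Real.log (relDisc K M ^ 2) =
      2 * (Real.log |(discr M : ℝ)| - Module.finrank K M * Real.log |(discr K : ℝ)|) := by
    unfold relDisc
    rw [Real.log_pow, Real.log_div hdM.ne' (pow_pos hdK _).ne', Real.log_pow]
    push_cast
    ring
  have hrd0 : 0 ≤ Real.log (relDisc K M ^ 2) := by
    rw [hrd]
    have := Pool.Agent.Y733.FF.disc_ge K M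
    linarith
  have hrdp : 0 < relDisc K M := by
    unfold relDisc
    positivity
  have hcond : Real.log (cond K F) = Real.log (multNorm F) + Real.log (addNorm F) +
      Real.log (relDisc K M ^ 2) := by
    unfold cond
    rw [Real.log_mul (mul_pos hmp hap).ne' (pow_pos hrdp 2).ne', Real.log_mul hmp.ne' hap.ne']
  have hK0 : (0 : ℝ) < Module.finrank ℚ K := by
    exact_mod_cast (Module.finrank_pos : 0 < Module.finrank ℚ K)
  have hCa := le_abs_self C
  have hCn := abs_nonneg C
  have hfirst : 12 * Module.finrank ℚ K * height K F τ ≤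
      ((weight A B : ℝ) / places A B + ε) * Real.log (multNorm F) +
      (3 + ((weight A B : ℝ) / places A B + ε) / 2) * Real.log (addNorm F) +
      3 * Real.log (relDisc K M ^ 2) + |C| := by
    have e1 : 12 * Module.finrank ℚ K * height K F τ =
        ∑ᶠ v : HeightOneSpectrum (𝓞 M), (discExp v F : ℝ) *
          Real.log (Ideal.absNorm v.asIdeal : ℝ) +
        ∑ w : InfinitePlace M, (w.mult : ℝ) * arch (τ w) +
        6 * (Real.log |(discr M : ℝ)| - Module.finrank K M * Real.log |(discr K : ℝ)|) := by
      unfold height
      field_simp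
    rw [e1, hrd]
    linarith
  refine ⟨hfirst, ?_⟩
  -- the slope
  obtain ⟨g, hg⟩ : ∃ g : ℝ, g = (places A B : ℝ) := ⟨_, rfl⟩
  obtain ⟨m, hm⟩ : ∃ m : ℝ, m = (weight A B : ℝ) := ⟨_, rfl⟩
  have hg3 : (2 : ℝ) ≤ g := by
    rw [hg]
    have : 2 ≤ places A B := by omega
    exact_mod_cast this
  have hmg : m + 12 ≤ 6 * g := by
    rw [hg, hm]
    exact_mod_cast h3
  rw [← hg, ← hm] at hfirst
  rw [← hg, hcond]
  have e1 : m / g ≤ 6 - 12 / g := by
    rw [div_le_iff₀ (by linarith)]
    have : (6 - 12 / g) * g = 6 * g - 12 := by field_simp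
    rw [this]
    linarith
  have e2 : 1 / (2 * g) ≤ 1 / 4 := by
    apply one_div_le_one_div_of_le (by norm_num)
    linarith
  have e3 : 12 / g = 24 * (1 / (2 * g)) := by
    field_simp
    norm_num
  have e4 : 0 < 1 / (2 * g) := by positivity
  obtain ⟨t, ht⟩ : ∃ t : ℝ, t = 1 / (2 * g) := ⟨_, rfl⟩
  rw [e3, ← ht] at e1
  rw [← ht] at e2 e4 ⊢
  have f1 : (m / g + ε) * Real.log (multNorm F) ≤
      12 * ((1 / 2 - t + ε) * Real.log (multNorm F)) := by
    have : m / g + ε ≤ 12 * (1 / 2 - t + ε) := by linarith
    calc (m / g + ε) * Real.log (multNorm F) ≤ (12 * (1 / 2 - t + ε)) * Real.log (multNorm F) :=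
        mul_le_mul_of_nonneg_right this hm0
      _ = _ := by ring
  have f2 : (3 + (m / g + ε) / 2) * Real.log (addNorm F) ≤
      12 * ((1 / 2 - t + ε) * Real.log (addNorm F)) := by
    have : 3 + (m / g + ε) / 2 ≤ 12 * (1 / 2 - t + ε) := by linarith
    calc (3 + (m / g + ε) / 2) * Real.log (addNorm F) ≤
        (12 * (1 / 2 - t + ε)) * Real.log (addNorm F) := mul_le_mul_of_nonneg_right this ha0
      _ = _ := by ring
  have f3 : 3 * Real.log (relDisc K M ^ 2) ≤
      12 * ((1 / 2 - t + ε) * Real.log (relDisc K M ^ 2)) := by
    have : (3 : ℝ) ≤ 12 * (1 / 2 - t + ε) := by linarith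
    calc 3 * Real.log (relDisc K M ^ 2) ≤ (12 * (1 / 2 - t + ε)) * Real.log (relDisc K M ^ 2) :=
        mul_le_mul_of_nonneg_right this hrd0
      _ = _ := by ring
  have f4 : (1 / 2 - t + ε) * (Real.log (multNorm F) + Real.log (addNorm F) +
      Real.log (relDisc K M ^ 2)) = (1 / 2 - t + ε) * Real.log (multNorm F) +
      (1 / 2 - t + ε) * Real.log (addNorm F) +
      (1 / 2 - t + ε) * Real.log (relDisc K M ^ 2) := by ring
  rw [f4]
  linarith

end Pool.Agent.Results.MP_6babc4_nt.AllFamiliesDegreeR
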