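import Mathlib
import Pool.Agent.N365.FH.D

/-!
# Frey's inequality, uniformly in all number fields, for all but few members of every one-parameter
# family of elliptic curves over `ℚ`, all twists and all Weil restrictions

Frey asks for constants `κ`, `c`, which may depend on the number field `K` and on `g`, such that
`h_F(A) ≤ κ log N_A + c` for all abelian varieties `A` over `K` of dimension `g`.  Let `J = A / D` be
any non-constant rational function over `ℚ`, of degree `N`, for example the `j`-invariant of an
elliptic curve over `ℚ(T)`, and `ε > 0`.  Its poles may have any degree, so that squarefree values of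
`D` are not understood.  Among the about `B ^ 2` rational numbers `t` of height at most `B` all but
`O(B ^ ε)` (all but `O(B ^ (1 + ε))` if `J` has only one pole on the projective line), and among the
integers `|t| ≤ B` all but `O(B ^ ε)` if `D` is not constant, have the following property:

`h_F(A) + c₀ g ≤ κ log N_A`, with `κ = (16 (N + 1) / ε + 3) / 6`, for ALL number fields `K`, of whatever
degree, ALL extensions `L` of `K`, of whatever degree `g = [L : K]`, and ALL elliptic curves `E` over `L`
with invariant `J(t)`, where `A = Res_{L/K} E` is the Weil restriction, an abelian variety over `K` of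
dimension `g` (`A = E` for `L = K`).

So the slope `κ` depends on `ε` and on the degree of `J` only, neither on `K` nor on `g` nor on the
family, and there is no additive constant: `c₀` is any given real number, which covers all
normalisations of the metrics.

The height is the (unstable) Faltings height of the Néron model over `O_K`; `12 [K : ℚ] h_F(A)` is the
sum of the logarithm of the norm of the minimal discriminant of `E`, of the archimedean terms and of
`6 log (|D_L| / |D_K| ^ g)`.  The conductor is `N_A = N(f_E) (|D_L| / |D_K| ^ g) ^ 2` (Milne), where the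
part of `N(f_E)` prime to six is `multNorm E * addNorm E`.

Proof.  The theorem of `Pool.Agent.N365.HY.I` gives, outside the exceptional set, primes `l` with
product `P ≥ B ^ (ε / 8)` at which `J(t)` has a pole, so that all curves `E` have bad reduction at all
places of `L` above them.  If `v` is a place of `K` above `l`, the places `w` of `L` above `v`
contribute `log N w` to the conductor of `E` and at least `(e(w) - 1) log N w` to the relative
discriminant, and `∑ e(w) log N w = g log N v`.  So `log N_A ≥ g log P`, whatever `K` and `L` are,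
whereas the height of `J(t)` is `O(log P)`; the minimal discriminant and the archimedean terms are
bounded by the height of the invariant and the additive primes.
-/

set_option autoImplicit false
set_option linter.unusedSectionVars false

namespace Pool.Agent.Results.MP_6babc4_nt.EveryOneParameterFamily

open NumberField IsDedekindDomain Polynomial

/-- the modular invariant `j(τ) = E₄(τ) ^ 3 / Δ(τ) = 1 / q + 744 + ⋯` -/
noncomputable def jInv (τ : UpperHalfPlane) : ℂ :=
  ModularForm.E₄ τ ^ 3 / ModularForm.discriminant τ

/-- the archimedean term `- log (|Δ(τ)| (Im τ) ^ 6)` of the Faltings height -/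
noncomputable def arch (τ : UpperHalfPlane) : ℝ :=
  -Real.log (‖ModularForm.discriminant τ‖ * τ.im ^ 6)

/-- the points `τ w` have modular invariant `j` -/
def IsPeriod {L : Type} [Field L] [NumberField L] (j : L)
    (τ : InfinitePlace L → UpperHalfPlane) : Prop := ∀ w, jInv (τ w) = w.embedding j

/-- the equation is integral at `v` -/
def IntAt {L : Type} [Field L] [NumberField L] (v : HeightOneSpectrum (𝓞 L))
    (E : WeierstrassCurve L) : Prop :=
  v.valuation L E.a₁ ≤ 1 ∧ v.valuation L E.a₂ ≤ 1 ∧ v.valuation L E.a₃ ≤ 1 ∧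
    v.valuation L E.a₄ ≤ 1 ∧ v.valuation L E.a₆ ≤ 1

/-- the exponent of `v` in the minimal discriminant of the curve: the least valuation at `v` of the
discriminant of a Weierstrass equation of the curve over `L` which is integral at `v` -/
noncomputable def discExp {L : Type} [Field L] [NumberField L] (v : HeightOneSpectrum (𝓞 L))
    (E : WeierstrassCurve L) : ℕ :=
  sInf {m : ℕ | ∃ C : WeierstrassCurve.VariableChange L, IntAt v (C • E) ∧
    v.valuation L (C • E).Δ = WithZero.exp (-(m : ℤ))}

/-- the Faltings height over `K` of the Weil restriction `A = Res_{L/K} E` of an elliptic curve `E`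
over `L` (up to an absolute additive multiple of `[L : K]` which depends on the normalisation of the
metric only) -/
noncomputable def height (K : Type) [Field K] [NumberField K] {L : Type} [Field L] [NumberField L]
    [Algebra K L] (E : WeierstrassCurve L) (τ : InfinitePlace L → UpperHalfPlane) : ℝ :=
  (∑ᶠ v : HeightOneSpectrum (𝓞 L), (discExp v E : ℝ) * Real.log (Ideal.absNorm v.asIdeal : ℝ) +
    ∑ w : InfinitePlace L, (w.mult : ℝ) * arch (τ w) +
    6 * (Real.log |(discr L : ℝ)| - Module.finrank K L * Real.log |(discr K : ℝ)|)) /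
    (12 * Module.finrank ℚ K)

/-- good reduction at `v`: some Weierstrass equation over `L` of the curve is integral at `v` and
has a discriminant which is a unit at `v` -/
def GoodAt {L : Type} [Field L] [NumberField L] (v : HeightOneSpectrum (𝓞 L))
    (E : WeierstrassCurve L) : Prop :=
  ∃ C : WeierstrassCurve.VariableChange L,
    v.valuation L (C • E).a₁ ≤ 1 ∧ v.valuation L (C • E).a₂ ≤ 1 ∧ v.valuation L (C • E).a₃ ≤ 1 ∧
    v.valuation L (C • E).a₄ ≤ 1 ∧ v.valuation L (C • E).a₆ ≤ 1 ∧ v.valuation L (C • E).Δ = 1

/-- semistable (good or multiplicative) reduction at `v`: some Weierstrass equation over `L` of the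
curve is integral at `v` and its discriminant or its invariant `c₄` is a unit at `v` -/
def SemistableAt {L : Type} [Field L] [NumberField L] (v : HeightOneSpectrum (𝓞 L))
    (E : WeierstrassCurve L) : Prop :=
  ∃ C : WeierstrassCurve.VariableChange L,
    v.valuation L (C • E).a₁ ≤ 1 ∧ v.valuation L (C • E).a₂ ≤ 1 ∧ v.valuation L (C • E).a₃ ≤ 1 ∧
    v.valuation L (C • E).a₄ ≤ 1 ∧ v.valuation L (C • E).a₆ ≤ 1 ∧
    (v.valuation L (C • E).Δ = 1 ∨ v.valuation L (C • E).c₄ = 1)

/-- the product of the norms of the primes of multiplicative reduction not dividing six -/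
noncomputable def multNorm {L : Type} [Field L] [NumberField L] (E : WeierstrassCurve L) : ℝ :=
  ∏ᶠ v ∈ {v : HeightOneSpectrum (𝓞 L) |
    ¬ GoodAt v E ∧ SemistableAt v E ∧ v.valuation L 6 = 1}, (Ideal.absNorm v.asIdeal : ℝ)

/-- the product of the squares of the norms of the primes of additive reduction not dividing six -/
noncomputable def addNorm {L : Type} [Field L] [NumberField L] (E : WeierstrassCurve L) : ℝ :=
  ∏ᶠ v ∈ {v : HeightOneSpectrum (𝓞 L) | ¬ SemistableAt v E ∧ v.valuation L 6 = 1},
    (Ideal.absNorm v.asIdeal : ℝ) ^ 2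

/-- the norm `|D_L| / |D_K| ^ [L : K]` of the relative discriminant -/
noncomputable def relDisc (K L : Type) [Field K] [NumberField K] [Field L] [NumberField L]
    [Algebra K L] : ℝ := |(discr L : ℝ)| / |(discr K : ℝ)| ^ Module.finrank K L

/-- a factor of the conductor of `A = Res_{L/K} E`: the part prime to six of the norm of the
conductor of `E`, times the square of the norm of the relative discriminant -/
noncomputable def cond (K : Type) [Field K] [NumberField K] {L : Type} [Field L] [NumberField L]
    [Algebra K L] (E : WeierstrassCurve L) : ℝ :=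
  multNorm E * addNorm E * relDisc K L ^ 2

/-- Frey's inequality `h_F(A) + c₀ [L : K] ≤ κ log N_A` for all number fields `K`, all extensions
`L` of `K`, and the Weil restrictions `A = Res_{L/K} E` of all elliptic curves `E` over `L` of
invariant `j` -/
def Frey (κ c₀ : ℝ) (j : ℚ) : Prop :=
  ∀ (K L : Type) [Field K] [NumberField K] [Field L] [NumberField L] [Algebra K L]
    (E : WeierstrassCurve L) (τ : InfinitePlace L → UpperHalfPlane),
    E.Δ ≠ 0 → E.c₄ ^ 3 / E.Δ = (j : L) → IsPeriod (j : L) τ →
      height K E τ + c₀ * Module.finrank K L ≤ κ * Real.log (cond K E)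

/-- `A / D` is a rational function of degree `N ≥ 1` in lowest terms -/
structure IsFunction (N : ℕ) (A D : ℤ[X]) : Prop where
  pos : 1 ≤ N
  deg_num : A.natDegree ≤ N
  deg_den : D.natDegree ≤ N
  deg : A.natDegree = N ∨ D.natDegree = N
  coprime : IsCoprime (A.map (Int.castRingHom ℚ)) (D.map (Int.castRingHom ℚ))

/-- the number of the different poles on the projective line over `ℂ` of the function `A / D` of
degree `N`: the roots of `D`, and infinity if `deg D < N` -/
noncomputable def poleCount (N : ℕ) (D : ℤ[X]) : ℕ :=
  (D.map (Int.castRingHom ℂ)).roots.toFinset.card + if D.natDegree < N then 1 else 0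

/-- the value of the polynomial `f` at the rational number `t` -/
noncomputable def value (f : ℤ[X]) (t : ℚ) : ℚ := f.eval₂ (Int.castRingHom ℚ) t

/-- `t` is not a pole of `J = A / D` and Frey's inequality holds for the invariant `J(t)` -/
def HoldsAt (κ c₀ : ℝ) (A D : ℤ[X]) (t : ℚ) : Prop :=
  value D t ≠ 0 ∧ Frey κ c₀ (value A t / value D t)

theorem follows (N : ℕ) {ε : ℝ} (hε : 0 < ε) (c₀ : ℝ) :
    Pool.Agent.N365.FH.Follows (ε / 8) (N + 1)
      (fun _ j => Frey ((16 * (N + 1) / ε + 3) / 6) c₀ j) := by
  obtain ⟨B₀, hB₀⟩ := Pool.Agent.N365.FH.frey N hε c₀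
  refine ⟨B₀, fun B hB hB1 x y hM hx hy K L _ _ _ _ _ E τ hE hj hτ => ?_⟩
  have hj' : E.c₄ ^ 3 / E.Δ = (x : L) / y := by
    rw [hj]
    push_cast
    rfl
  have hτ' : Pool.Agent.TH876.FH.IsPeriod (E.c₄ ^ 3 / E.Δ) τ := by
    rw [hj]
    exact hτ
  have key := hB₀ B hB hB1 x y hM hx hy K L E τ hE hj' hτ'
  have hdK1 : (1 : ℝ) ≤ |(discr K : ℝ)| := by
    have h1 : (1 : ℤ) ≤ |discr K| := Int.one_le_abs (discr_ne_zero K)
    exact_mod_cast h1
  have hdL1 : (1 : ℝ) ≤ |(discr L : ℝ)| := by
    have h1 : (1 : ℤ) ≤ |discr L| := Int.one_le_abs (discr_ne_zero L)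
    exact_mod_cast h1
  have hm : 0 < multNorm E := Pool.Agent.Y733.FF.multN_pos E hE
  have ha : 0 < addNorm E := Pool.Agent.Y733.FF.addN_pos E hE
  have hr : 0 < relDisc K L := by
    unfold relDisc
    have : (0 : ℝ) < |(discr L : ℝ)| := by linarith
    have : (0 : ℝ) < |(discr K : ℝ)| := by linarith
    positivity
  have hrd : Real.log (relDisc K L ^ 2) = 2 * Pool.Agent.N365.FH.rd K L := by
    unfold relDisc Pool.Agent.N365.FH.rd
    rw [Real.log_pow, Real.log_div (by linarith) (pow_pos (by linarith) _).ne', Real.log_pow]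
    push_cast
    ring
  have hcond : Real.log (cond K E) = Real.log (multNorm E) + Real.log (addNorm E) +
      2 * Pool.Agent.N365.FH.rd K L := by
    unfold cond
    rw [Real.log_mul (mul_pos hm ha).ne' (pow_pos hr 2).ne', Real.log_mul hm.ne' ha.ne', hrd]
  rw [hcond]
  exact key

/-- **Theorem.** For every rational function `J = A / D` of degree `N` over `ℚ`, every `ε > 0` and
every `c₀`, all rational numbers `t` of height at most `B` with at most `C B ^ (1 + ε)` exceptions, with
at most `C B ^ ε` exceptions if the function has at least two poles, and all integers `|t| ≤ B` with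
at most `C B ^ ε` exceptions if `D` is not constant, satisfy Frey's inequality with the slope
`(16 (N + 1) / ε + 3) / 6`, for all number fields, all Weil restrictions and all twists at once. -/
theorem result (N : ℕ) (A D : ℤ[X]) (h : IsFunction N A D) (ε c₀ : ℝ) (hε : 0 < ε) :
    (∃ C : ℝ, ∀ B : ℕ, 1 ≤ B → ({t : ℚ | |t.num| ≤ B ∧ t.den ≤ B ∧
      ¬ HoldsAt ((16 * (N + 1) / ε + 3) / 6) c₀ A D t}.ncard : ℝ) ≤ C * (B : ℝ) ^ (1 + ε)) ∧
    (2 ≤ poleCount N D → ∃ C : ℝ, ∀ B : ℕ, 1 ≤ B → ({t : ℚ | |t.num| ≤ B ∧ t.den ≤ B ∧
      ¬ HoldsAt ((16 * (N + 1) / ε + 3) / 6) c₀ A D t}.ncard : ℝ) ≤ C * (B : ℝ) ^ ε) ∧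
    (1 ≤ D.natDegree → ∃ C : ℝ, ∀ B : ℕ, 1 ≤ B → ({t : ℤ | |t| ≤ B ∧
      ¬ HoldsAt ((16 * (N + 1) / ε + 3) / 6) c₀ A D t}.ncard : ℝ) ≤ C * (B : ℝ) ^ ε) := by
  have hR : Pool.Agent.N365.LS.Rat N A D := ⟨h.pos, h.deg_num, h.deg_den, h.deg, h.coprime⟩
  have hpole : poleCount N D = Pool.Agent.N365.LS.poleCount N D := rfl
  obtain ⟨C, hC⟩ := Pool.Agent.N365.FH.few_rat hR hε (follows N hε c₀)
  refine ⟨⟨max C 0, fun B hB => ?_⟩, fun h2 => ⟨C, fun B hB => ?_⟩,
    fun hD => Pool.Agent.N365.FH.few_int hR hD hε (follows N hε c₀)⟩
  · have hB1 : (1 : ℝ) ≤ B := by exact_mod_cast hB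
    refine (hC B hB).trans (mul_le_mul (le_max_left _ _) ?_ (by positivity) (le_max_right _ _))
    refine Real.rpow_le_rpow_of_exponent_le hB1 ?_
    split_ifs <;> linarith
  · have h3 := hC B hB
    rw [if_pos (by rw [← hpole]; exact h2)] at h3
    exact h3

end Pool.Agent.Results.MP_6babc4_nt.EveryOneParameterFamily
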