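import Mathlib
import Pool.Agent.N141.TS.Thin5
import Pool.Agent.N141.TS.Frey

/-!
# Frey's inequality along thin sequences of elliptic curves in families with several parameters, over
# all number fields of bounded degree and for all Weil restrictions

Frey asks for constants `κ`, `c` such that `h_F(A) ≤ κ log N_A + c` for all abelian varieties `A` over
`K` of dimension `g`. Let `J = A / D` be a rational function over `ℚ` in `r` variables, for example the
`j`-invariant of an elliptic curve over `ℚ(t₁, …, t_r)`, whose reductions modulo the primes have many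
poles in the mean (`MeanPoles`); this is so for the universal family `y² = x³ + t₁ x + t₂`. Let
`P_i(n) = ∑ a_x n ^ x` be sums of real powers with real coefficients whose largest exponents are
positive, distinct and not integers and have positive coefficients, for example `n ^ √2`,
`π n ^ 0.3`. For every `ε > 0` and `d` there are constants `κ`, `c` such that for all but `ε N` of the
integers `n` in `(N, 2 N]`, `N` large, and for all but the proportion `ε` of the primes `n` in
`(N, 2 N]`, Frey's inequality with the constants `κ` and `c` holds for ALL Weil restrictions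
`A = Res_{L/K} E`, where `L/K` is any extension of number fields, `[L : ℚ] ≤ d`, and `E` is any
elliptic curve over `L` of invariant `j = J (⌊P₁(n)⌋, …, ⌊P_r(n)⌋)` (all twists; `A = E` for
`L = K`).

The height is the (unstable) Faltings height of the Néron model over `O_K`; `12 [K : ℚ] h_F(A)` is the
sum of the logarithm of the norm of the minimal discriminant of `E`, of the archimedean terms and of
`6 log (|D_L| / |D_K| ^ g)`, `g = [L : K]`. The conductor is
`N_A = N(f_E) (|D_L| / |D_K| ^ g) ^ 2` (Milne), where the part of `N(f_E)` prime to six is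
`multNorm E * addNorm E`.

Proof. The integer vectors `⌊P_i(n)⌋` are jointly equidistributed modulo all `q ≤ N ^ δ`, over the
integers and over the primes (exponential sums, `Pool.Agent.N666`). By Turan's sieve with the primes
`p` in `(N ^ (τ δ), N ^ δ]`, `τ` small, all but the proportion `ε` of the `n` have such a prime
dividing `D` and not `A`; by the Schwartz-Zippel lemma `D ≠ 0` for almost all `n`. All elliptic
curves of invariant `j` have bad reduction at the primes above `p`, the height of `j` is `O(log N)`,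
and the minimal discriminant is bounded by the height of `j` and the additive primes.
-/

set_option autoImplicit false
set_option linter.unusedSectionVars false

namespace Pool.Agent.Results.MP_6babc4_nt.ThinSequences

open NumberField IsDedekindDomain

/-- the modular invariant `j(τ) = E₄(τ) ^ 3 / Δ(τ) = 1 / q + 744 + ⋯` -/
noncomputable def jInv (τ : UpperHalfPlane) : ℂ :=
  ModularForm.E₄ τ ^ 3 / ModularForm.discriminant τ

/-- the archimedean term `- log (|Δ(τ)| (Im τ) ^ 6)` of the Faltings height -/
noncomputable def arch (τ : UpperHalfPlane) : ℝ :=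
  -Real.log (‖ModularForm.discriminant τ‖ * τ.im ^ 6)

/-- the points `τ w` have modular invariant `j` -/
def IsPeriod {L : Type} [Field L] [NumberField L] (j : L)
    (τ : InfinitePlace L → UpperHalfPlane) : Prop := ∀ w, jInv (τ w) = w.embedding j

/-- the equation is integral at `v` -/
def IntAt {L : Type} [Field L] [NumberField L] (v : HeightOneSpectrum (𝓞 L))
    (E : WeierstrassCurve L) : Prop :=
  v.valuation L E.a₁ ≤ 1 ∧ v.valuation L E.a₂ ≤ 1 ∧ v.valuation L E.a₃ ≤ 1 ∧
    v.valuation L E.a₄ ≤ 1 ∧ v.valuation L E.a₆ ≤ 1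

/-- the exponent of `v` in the minimal discriminant of the curve: the least valuation at `v` of the
discriminant of a Weierstrass equation of the curve over `L` which is integral at `v` -/
noncomputable def discExp {L : Type} [Field L] [NumberField L] (v : HeightOneSpectrum (𝓞 L))
    (E : WeierstrassCurve L) : ℕ :=
  sInf {m : ℕ | ∃ C : WeierstrassCurve.VariableChange L, IntAt v (C • E) ∧
    v.valuation L (C • E).Δ = WithZero.exp (-(m : ℤ))}

/-- the Faltings height over `K` of the Weil restriction `A = Res_{L/K} E` of an elliptic curve `E`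
over `L` (up to an absolute additive multiple of `[L : K]` which depends on the normalisation of the
metric only) -/
noncomputable def height (K : Type) [Field K] [NumberField K] {L : Type} [Field L] [NumberField L]
    [Algebra K L] (E : WeierstrassCurve L) (τ : InfinitePlace L → UpperHalfPlane) : ℝ :=
  (∑ᶠ v : HeightOneSpectrum (𝓞 L), (discExp v E : ℝ) * Real.log (Ideal.absNorm v.asIdeal : ℝ) +
    ∑ w : InfinitePlace L, (w.mult : ℝ) * arch (τ w) +
    6 * (Real.log |(discr L : ℝ)| - Module.finrank K L * Real.log |(discr K : ℝ)|)) /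
    (12 * Module.finrank ℚ K)

/-- good reduction at `v`: some Weierstrass equation over `L` of the curve is integral at `v` and
has a discriminant which is a unit at `v` -/
def GoodAt {L : Type} [Field L] [NumberField L] (v : HeightOneSpectrum (𝓞 L))
    (E : WeierstrassCurve L) : Prop :=
  ∃ C : WeierstrassCurve.VariableChange L,
    v.valuation L (C • E).a₁ ≤ 1 ∧ v.valuation L (C • E).a₂ ≤ 1 ∧ v.valuation L (C • E).a₃ ≤ 1 ∧
    v.valuation L (C • E).a₄ ≤ 1 ∧ v.valuation L (C • E).a₆ ≤ 1 ∧ v.valuation L (C • E).Δ = 1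

/-- semistable (good or multiplicative) reduction at `v`: some Weierstrass equation over `L` of the
curve is integral at `v` and its discriminant or its invariant `c₄` is a unit at `v` -/
def SemistableAt {L : Type} [Field L] [NumberField L] (v : HeightOneSpectrum (𝓞 L))
    (E : WeierstrassCurve L) : Prop :=
  ∃ C : WeierstrassCurve.VariableChange L,
    v.valuation L (C • E).a₁ ≤ 1 ∧ v.valuation L (C • E).a₂ ≤ 1 ∧ v.valuation L (C • E).a₃ ≤ 1 ∧
    v.valuation L (C • E).a₄ ≤ 1 ∧ v.valuation L (C • E).a₆ ≤ 1 ∧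
    (v.valuation L (C • E).Δ = 1 ∨ v.valuation L (C • E).c₄ = 1)

/-- the product of the norms of the primes of multiplicative reduction not dividing six -/
noncomputable def multNorm {L : Type} [Field L] [NumberField L] (E : WeierstrassCurve L) : ℝ :=
  ∏ᶠ v ∈ {v : HeightOneSpectrum (𝓞 L) |
    ¬ GoodAt v E ∧ SemistableAt v E ∧ v.valuation L 6 = 1}, (Ideal.absNorm v.asIdeal : ℝ)

/-- the product of the squares of the norms of the primes of additive reduction not dividing six -/
noncomputable def addNorm {L : Type} [Field L] [NumberField L] (E : WeierstrassCurve L) : ℝ :=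
  ∏ᶠ v ∈ {v : HeightOneSpectrum (𝓞 L) | ¬ SemistableAt v E ∧ v.valuation L 6 = 1},
    (Ideal.absNorm v.asIdeal : ℝ) ^ 2

/-- the norm `|D_L| / |D_K| ^ [L : K]` of the relative discriminant -/
noncomputable def relDisc (K L : Type) [Field K] [NumberField K] [Field L] [NumberField L]
    [Algebra K L] : ℝ := |(discr L : ℝ)| / |(discr K : ℝ)| ^ Module.finrank K L

/-- the part `N` of the conductor of `A = Res_{L/K} E`: the part prime to six of the norm of the
conductor of `E`, times the square of the norm of the relative discriminant -/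
noncomputable def cond (K : Type) [Field K] [NumberField K] {L : Type} [Field L] [NumberField L]
    [Algebra K L] (E : WeierstrassCurve L) : ℝ :=
  multNorm E * addNorm E * relDisc K L ^ 2

/-- Frey's inequality with the constants `κ` and `c` for the Weil restrictions to all subfields `K`
of `L` of all elliptic curves over `L` of invariant `j` -/
def Frey (κ c : ℝ) {L : Type} [Field L] [NumberField L] (j : L) : Prop :=
  ∀ (K : Type) [Field K] [NumberField K] [Algebra K L] (E : WeierstrassCurve L)
    (τ : InfinitePlace L → UpperHalfPlane), E.Δ ≠ 0 → E.c₄ ^ 3 / E.Δ = j → IsPeriod j τ →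
    height K E τ ≤ κ * Real.log (cond K E) + c

open MvPolynomial

/-- the sum over the primes `y < p ≤ x` of the proportion of the vectors modulo `p` that are zeros of
`D` but not of `A` is at least `δ (log log x - log log y) - C` -/
def MeanPoles {r : ℕ} (A D : MvPolynomial (Fin r) ℤ) : Prop :=
  ∃ δ C : ℝ, 0 < δ ∧ ∀ y x : ℕ, 3 ≤ y → y ≤ x →
    δ * (Real.log (Real.log x) - Real.log (Real.log y)) - C ≤
      ∑ p ∈ (Finset.Ioc y x).filter Nat.Prime,
        ({ρ : Fin r → ZMod p | aeval ρ D = 0 ∧ aeval ρ A ≠ 0}.ncard : ℝ) / (p : ℝ) ^ r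

/-- `c` is the largest exponent of the generalised polynomial `∑ a_x n ^ x`; it is positive and not
an integer and has a positive coefficient. -/
def Admissible (F : Finset ℝ) (a : ℝ → ℝ) (c : ℝ) : Prop :=
  c ∈ F ∧ (∀ x ∈ F, x ≤ c) ∧ 0 < c ∧ (∀ m : ℕ, c ≠ m) ∧ 0 < a c

/-- the integer parts of the values at `n` of the generalised polynomials -/
noncomputable def value {r : ℕ} (F : Fin r → Finset ℝ) (a : Fin r → ℝ → ℝ) (n : ℕ) : Fin r → ℤ :=
  fun i => ⌊∑ x ∈ F i, a i x * (n : ℝ) ^ x⌋

/-- `v` is not a pole of `A / D` and Frey's inequality holds at `(A / D) (v)` over all number fields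
of degree at most `d` -/
def Holds (κ c : ℝ) (d : ℕ) {r : ℕ} (A D : MvPolynomial (Fin r) ℤ) (v : Fin r → ℤ) : Prop :=
  eval v D ≠ 0 ∧ ∀ (L : Type) [Field L] [NumberField L], Module.finrank ℚ L ≤ d →
    Frey κ c (((eval v A : ℤ) : L) / ((eval v D : ℤ) : L))

/-- Frey's inequality from a large pole -/
theorem frey_of {σ : ℝ} (hσ : 0 ≤ σ) (d : ℕ) : ∃ c : ℝ, ∀ x y : ℤ, Pool.Agent.N141.TS.Big5 σ x y →
    ∀ (L : Type) [Field L] [NumberField L], Module.finrank ℚ L ≤ d →
      Frey ((5 + d * σ) / 12) c ((x : L) / y) := by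
  obtain ⟨C, hC, hf⟩ := Pool.Agent.N141.TS.frey_big
  refine ⟨C * d / 12, fun x y hb L _ _ hL K _ _ _ E τ hE hj hτ => ?_⟩
  obtain ⟨hy0, p, hp, h5, hpy, hpx, H, h1, h2, h3⟩ := hb
  have hτ' : Pool.Agent.TH876.FH.IsPeriod (E.c₄ ^ 3 / E.Δ) τ := by
    rw [hj]
    exact hτ
  have key := hf L E τ σ x y p hE hj hτ' hσ hy0 hp h5 hpy hpx ⟨H, h1, h2, h3⟩
  have hdK1 : (1 : ℝ) ≤ |(discr K : ℝ)| := by
    have h1 : (1 : ℤ) ≤ |discr K| := Int.one_le_abs (discr_ne_zero K)
    exact_mod_cast h1
  have hdL1 : (1 : ℝ) ≤ |(discr L : ℝ)| := by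
    have h1 : (1 : ℤ) ≤ |discr L| := Int.one_le_abs (discr_ne_zero L)
    exact_mod_cast h1
  have hK1 : (1 : ℝ) ≤ Module.finrank ℚ K := by
    exact_mod_cast Module.finrank_pos (R := ℚ) (M := K)
  have hm : 0 < multNorm E := Pool.Agent.Y733.FF.multN_pos E hE
  have ha : 0 < addNorm E := Pool.Agent.Y733.FF.addN_pos E hE
  have hr : 0 < relDisc K L := by
    unfold relDisc
    have : (0 : ℝ) < |(discr L : ℝ)| := by linarith
    have : (0 : ℝ) < |(discr K : ℝ)| := by linarith
    positivity
  have hlm : 0 ≤ Real.log (multNorm E) := Pool.Agent.Y733.FF.log_multN_nonneg E hE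
  have hla : 0 ≤ Real.log (addNorm E) := by
    have h1 := Pool.Agent.Y733.FF.log_addN E hE
    have h2 : Real.log (addNorm E) = Real.log (Pool.Agent.Y733.FF.addN E) := rfl
    rw [h2, h1]
    have : 0 ≤ ∑ᶠ v : HeightOneSpectrum (𝓞 L), Pool.Agent.Y733.FF.aw v E :=
      finsum_nonneg fun v => Pool.Agent.Y733.FF.aw_nonneg v E
    linarith
  have hlr : 0 ≤ Real.log (relDisc K L ^ 2) := by
    have h3 := Pool.Agent.Y733.FF.disc_ge K L
    have h4 : Real.log (relDisc K L ^ 2) =
        2 * (Real.log |(discr L : ℝ)| - Module.finrank K L * Real.log |(discr K : ℝ)|) := by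
      unfold relDisc
      rw [Real.log_pow, Real.log_div (by linarith) (pow_pos (by linarith) _).ne', Real.log_pow]
      push_cast
      ring
    rw [h4]
    linarith
  have hcond : Real.log (cond K E) = Real.log (multNorm E) + Real.log (addNorm E) +
      Real.log (relDisc K L ^ 2) := by
    unfold cond
    rw [Real.log_mul (mul_pos hm ha).ne' (pow_pos hr 2).ne', Real.log_mul hm.ne' ha.ne']
  have hheight : 12 * (Module.finrank ℚ K : ℝ) * height K E τ = Pool.Agent.Y733.FF.discSum E +
      ∑ w : InfinitePlace L, (w.mult : ℝ) * Pool.Agent.TH876.FH.arch (τ w) +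
      3 * Real.log (relDisc K L ^ 2) := by
    have h0 : (12 * (Module.finrank ℚ K : ℝ)) ≠ 0 := by positivity
    have h3 : 3 * Real.log (relDisc K L ^ 2) =
        6 * (Real.log |(discr L : ℝ)| - Module.finrank K L * Real.log |(discr K : ℝ)|) := by
      unfold relDisc
      rw [Real.log_pow, Real.log_div (by linarith) (pow_pos (by linarith) _).ne', Real.log_pow]
      push_cast
      ring
    rw [h3]
    unfold height
    rw [mul_div_cancel₀ _ h0]
    rfl
  have hn : (Module.finrank ℚ L : ℝ) ≤ d := by exact_mod_cast hL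
  have hn0 : (0 : ℝ) ≤ Module.finrank ℚ L := Nat.cast_nonneg _
  have hkey2 : Pool.Agent.Y733.FF.discSum E +
      ∑ w : InfinitePlace L, (w.mult : ℝ) * Pool.Agent.TH876.FH.arch (τ w) ≤
      (5 + Module.finrank ℚ L * σ) * (Real.log (multNorm E) + Real.log (addNorm E)) +
        C * Module.finrank ℚ L := key
  set S := Real.log (multNorm E) + Real.log (addNorm E) with hS
  have hS0 : 0 ≤ S := by positivity
  have h6 : (Module.finrank ℚ L : ℝ) * σ ≤ d * σ := mul_le_mul_of_nonneg_right hn hσ
  have h7 : (5 + Module.finrank ℚ L * σ) * S ≤ (5 + d * σ) * S :=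
    mul_le_mul_of_nonneg_right (by linarith) hS0
  have h8 : C * Module.finrank ℚ L ≤ C * d := mul_le_mul_of_nonneg_left hn hC.le
  have h9 : 3 * Real.log (relDisc K L ^ 2) ≤ (5 + d * σ) * Real.log (relDisc K L ^ 2) := by
    refine mul_le_mul_of_nonneg_right ?_ hlr
    have : 0 ≤ (d : ℝ) * σ := by positivity
    linarith
  have h10 : 12 * (Module.finrank ℚ K : ℝ) * height K E τ ≤
      (5 + d * σ) * Real.log (cond K E) + C * d := by
    rw [hheight, hcond]
    nlinarith
  have h11 : 0 ≤ (5 + d * σ) * Real.log (cond K E) + C * d := by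
    rw [hcond]
    positivity
  -- divide by `12 [K : ℚ]`
  have h12 : height K E τ ≤ ((5 + d * σ) * Real.log (cond K E) + C * d) / 12 := by
    rw [le_div_iff₀ (by norm_num)]
    rcases le_or_gt (height K E τ) 0 with h13 | h13
    · linarith
    · have h14 : height K E τ * 12 ≤ 12 * (Module.finrank ℚ K : ℝ) * height K E τ := by nlinarith
      linarith
  refine h12.trans (le_of_eq ?_)
  ring

/-- **Theorem.** (1) Frey's inequality, with constants `κ` and `c'` depending on `ε` and `d`, holds for
the Weil restrictions to all subfields of all elliptic curves of invariant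
`J (⌊P₁(n)⌋, …, ⌊P_r(n)⌋)` over number fields of degree at most `d`, for all but `ε N` of the integers
`n` in `(N, 2 N]` and for all but the proportion `ε` of the primes in `(N, 2 N]`, `N ≥ N₀`. (2) The
invariant `6912 t₁³ / (4 t₁³ + 27 t₂²)` of the universal family `y² = x³ + t₁ x + t₂` has many poles in
the mean. -/
theorem result :
    (∀ (r : ℕ) (A D : MvPolynomial (Fin r) ℤ), 0 < r → D ≠ 0 → MeanPoles A D →
      ∀ (F : Fin r → Finset ℝ) (a : Fin r → ℝ → ℝ) (c : Fin r → ℝ),
        (∀ i, Admissible (F i) (a i) (c i)) → Function.Injective c →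
      ∀ (d : ℕ) (ε : ℝ), 0 < ε → ∃ (κ c' : ℝ) (N₀ : ℕ), 0 < κ ∧
        ∀ N : ℕ, N₀ ≤ N →
          ({n : ℕ | n ∈ Finset.Ioc N (2 * N) ∧
              ¬ Holds κ c' d A D (value F a n)}.ncard : ℝ) ≤ ε * N ∧
          ({n : ℕ | n ∈ (Finset.Ioc N (2 * N)).filter Nat.Prime ∧
              ¬ Holds κ c' d A D (value F a n)}.ncard : ℝ) ≤
            ε * ((Finset.Ioc N (2 * N)).filter Nat.Prime).card) ∧
    MeanPoles (C 6912 * X 0 ^ 3 : MvPolynomial (Fin 2) ℤ) (C 4 * X 0 ^ 3 + C 27 * X 1 ^ 2) := by
  refine ⟨fun r A D hr hD hM F a c h hc d ε hε => ?_, Pool.Agent.N141.TS.mean_wei⟩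
  obtain ⟨σ, hσ, N₀, hN₀⟩ := Pool.Agent.N141.TS.thin5 hr hD hM ⟨h, hc⟩ ε hε
  obtain ⟨c', hc'⟩ := frey_of hσ d
  have key : ∀ v : Fin r → ℤ, Pool.Agent.N141.TS.Big5 σ (eval v A) (eval v D) →
      Holds ((5 + d * σ) / 12) c' d A D v := fun v hb =>
    ⟨hb.1, fun L _ _ hL => hc' _ _ hb L hL⟩
  refine ⟨(5 + d * σ) / 12, c', N₀, by positivity, fun N hN => ?_⟩
  obtain ⟨k1, k2⟩ := hN₀ N hN
  rw [Nat.card_Ioc, show 2 * N - N = N by omega] at k1
  exact ⟨(Pool.Agent.N141.TS.ncard_mono fun n _ hn hb => hn (key _ hb)).trans k1,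
    (Pool.Agent.N141.TS.ncard_mono fun n _ hn hb => hn (key _ hb)).trans k2⟩

end Pool.Agent.Results.MP_6babc4_nt.ThinSequences
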