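import Mathlib
import Pool.Agent.N906.FH.AllUn

/-!
# Frey's inequality for all elliptic curves over `ℚ`: the exact number of the violators with small slope

Frey's inequality is `h_F(A) ≤ κ log N_A + c`. We consider ALL elliptic curves over `ℚ`, that is, all minimal
models `y² = x³ - a x - b`, `|a| ≤ X²`, `|b| ≤ X³` (there are about `c X⁵` of them), and the slopes
`1/12 < κ < 1/10`. The number `V(X)` of the violators, `h_F(E) ≥ κ log N_E + c`, satisfies

  `log V(X) = (1/(2κ) - 1) log X + (√(96 - 8/κ) + o(1)) √(log X / log log X)`.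

(The exponent `1/(2κ) - 1` vanishes at `κ = 1/2`, the slope in Frey's conjecture.)
-/

set_option autoImplicit false

namespace Pool.Agent.Results.MP_6babc4_nt.ViolatorsSecondOrder

open Filter Topology

/-- the discriminant of `x³ - a x - b` -/
def Disc (a b : ℤ) : ℤ := 4 * a ^ 3 - 27 * b ^ 2

/-- `y² = x³ - a x - b` is an elliptic curve and `|Disc|` is least among the integral models
`y² = x³ - a' x - b'`, `a' = u⁴ a`, `b' = u⁶ b`, `u ∈ ℚ^×`. Every elliptic curve over `ℚ` has exactly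
one such model. -/
def IsMinimal (a b : ℤ) : Prop :=
  Disc a b ≠ 0 ∧ ∀ (u : ℚ) (a' b' : ℤ), u ≠ 0 → (a' : ℚ) = u ^ 4 * a → (b' : ℚ) = u ^ 6 * b →
    |Disc a b| ≤ |Disc a' b'|

/-- the prime-to-6 part of the conductor of a minimal model: the product over the primes `p ≥ 5`
dividing `Disc` of `p` (multiplicative reduction: `p ∤ a`) or `p²` (additive reduction: `p ∣ a`) -/
def Cond6 (a b : ℤ) : ℕ :=
  ∏ p ∈ (Disc a b).natAbs.primeFactors.filter (fun p => 5 ≤ p), if (p : ℤ) ∣ a then p ^ 2 else p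

/-- `f` lies between `N₆` and a constant times `N₆` on the minimal models; for instance `f = N₆`, and
`f =` the conductor -/
def Admissible (f : ℤ × ℤ → ℝ) : Prop :=
  ∃ B : ℝ, ∀ q : ℤ × ℤ, IsMinimal q.1 q.2 →
    (Cond6 q.1 q.2 : ℝ) ≤ f q ∧ f q ≤ B * Cond6 q.1 q.2

/-- the curve `y² = x³ - a x - b` over `ℚ`, `q = (a, b)` -/
def E (q : ℤ × ℤ) : WeierstrassCurve ℚ := ⟨0, 0, 0, -(q.1 : ℚ), -(q.2 : ℚ)⟩

/-- the absolute value of the minimal discriminant of an elliptic curve `W` over `ℚ`: the smallest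
absolute value of the discriminant of a Weierstrass equation `V` with integer coefficients which is
isomorphic to `W` over `ℚ` -/
noncomputable def minDisc (W : WeierstrassCurve ℚ) : ℕ :=
  sInf {n : ℕ | ∃ (V : WeierstrassCurve ℤ) (C : WeierstrassCurve.VariableChange ℚ),
    C • W = V.map (Int.castRingHom ℚ) ∧ n = V.Δ.natAbs}

/-- the modular invariant `j(τ) = E₄(τ) ^ 3 / Δ(τ) = 1 / q + 744 + ⋯` -/
noncomputable def jInv (τ : UpperHalfPlane) : ℂ :=
  ModularForm.E₄ τ ^ 3 / ModularForm.discriminant τ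

/-- the archimedean term `- log (|Δ(τ)| (Im τ) ^ 6)` of the Faltings height -/
noncomputable def arch (τ : UpperHalfPlane) : ℝ :=
  -Real.log (‖ModularForm.discriminant τ‖ * τ.im ^ 6)

/-- `E(ℂ)` is isomorphic to `ℂ / (ℤ + ℤ τ)`: `j(τ) = c₄³ / Δ` is the invariant of `E` -/
def IsPeriod (q : ℤ × ℤ) (τ : UpperHalfPlane) : Prop :=
  jInv τ = (((E q).c₄ ^ 3 / (E q).Δ : ℚ) : ℂ)

/-- The Faltings height over `ℚ` (up to an additive constant which depends on the normalisation
only): `12 h_F(E)` is the logarithm of the minimal discriminant plus the archimedean term at a period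
`τ` of the curve. -/
noncomputable def height (q : ℤ × ℤ) (τ : UpperHalfPlane) : ℝ :=
  (Real.log (minDisc (E q) : ℝ) + arch τ) / 12

/-- the minimal models with `|a| ≤ X²`, `|b| ≤ X³` which violate `h_F(E) < κ log f + c` -/
def Violators (f : ℤ × ℤ → ℝ) (κ c X : ℝ) : Set (ℤ × ℤ) :=
  {q | IsMinimal q.1 q.2 ∧ |(q.1 : ℝ)| ≤ X ^ 2 ∧ |(q.2 : ℝ)| ≤ X ^ 3 ∧
    ∃ τ, IsPeriod q τ ∧ κ * Real.log (f q) + c ≤ height q τ}

theorem hm (a b : ℤ) : IsMinimal a b ↔ Pool.Agent.N906.SZ.Mn a b :=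
  Pool.Agent.N157.SZ.isMinimal_iff a b

theorem viol_eq (f : ℤ × ℤ → ℝ) (κ c X : ℝ) : Violators f κ c X =
    Pool.Agent.N906.FH.HV (fun a b => ∃ τ, Pool.Agent.N906.FH.IsPer a b τ ∧
      κ * Real.log (f (a, b)) + c ≤ Pool.Agent.N906.FH.hun a b τ) X := by
  ext q
  exact and_congr (hm _ _) Iff.rfl

/-- **Theorem.** Let `f` be admissible (for instance the conductor), `1/12 < κ < 1/10` and `c` real. The
number `V(X)` of the minimal models of elliptic curves over `ℚ` with `|a| ≤ X²`, `|b| ≤ X³` and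
`h_F ≥ κ log f + c` is finite, and `(log V(X) - (1/(2κ) - 1) log X) / √(log X / log log X)` tends to
`√(96 - 8/κ)`. -/
theorem result : ∀ f : ℤ × ℤ → ℝ, Admissible f → ∀ κ c : ℝ, 1 / 12 < κ → κ < 1 / 10 →
    (∀ X : ℝ, (Violators f κ c X).Finite) ∧
    Tendsto (fun X : ℝ => (Real.log ((Violators f κ c X).ncard : ℝ) -
      (1 / (2 * κ) - 1) * Real.log X) / √(Real.log X / Real.log (Real.log X))) atTop
      (𝓝 √(96 - 8 / κ)) := by
  intro f hf κ c h1 h2
  obtain ⟨B, hB⟩ := hf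
  simp only [viol_eq]
  refine ⟨fun X => Pool.Agent.N906.FH.HV_fin _ X, ?_⟩
  refine Pool.Agent.N906.FH.lim_un_all (f := fun a b => f (a, b)) (B := max B 1)
    (le_max_right _ _) ?_ h1 h2 c
  intro a b hab
  obtain ⟨g1, g2⟩ := hB (a, b) ((hm a b).2 hab)
  refine ⟨g1, g2.trans ?_⟩
  have : (0 : ℝ) ≤ (Cond6 a b : ℝ) := Nat.cast_nonneg _
  exact mul_le_mul_of_nonneg_right (le_max_left _ _) this

end Pool.Agent.Results.MP_6babc4_nt.ViolatorsSecondOrder
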